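import Pool.Agent.helper98.RPQ.SpecR

/-!
# Row `rpq:QMB` (MP_07c750): the second moment
-/

set_option autoImplicit false

open scoped MatrixGroups ContDiff Topology UpperHalfPlane ComplexConjugate ENNReal
open UpperHalfPlane MeasureTheory Filter Set

namespace Pool.Agent.RPQ

open Pool.Agent.RS
open Pool.Agent.MS (BA BB st pf gk Dk amk)

theorem QMB_phi (hSNC : SNC_stmt) {J : ℕ} (nc : ℕ) (x y : Fin J → ℝ) :
    ‖∫ ξ, Complex.exp (((∑ j, ξ j * (x j - y j) : ℝ) : ℂ) * Complex.I) ∂PJ J‖ₑ ≤ und1 nc x y + ENNReal.ofReal ((9 / 10) ^ nc) := by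
  obtain ⟨-, -, h1, h2⟩ := hSNC J
  by_cases h : {j : Fin J | 1 ≤ |x j - y j|}.ncard < nc
  · have e : und1 nc x y = 1 := by
      unfold und1
      rw [indicator_of_mem]
      exact h
    rw [e]
    refine le_trans ?_ le_self_add
    rw [← ofReal_norm]
    exact ENNReal.ofReal_le_one.2 (h1 (fun j => x j - y j))
  · push Not at h
    refine le_trans ?_ le_add_self
    rw [← ofReal_norm]
    exact ENNReal.ofReal_le_ofReal (h2 (fun j => x j - y j) nc h)

theorem QMB_norm (s : ℝ) : ‖Complex.exp ((s : ℂ) * Complex.I)‖ = 1 := Complex.norm_exp_ofReal_mul_I s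

theorem QMB_conj (s : ℝ) : conj (Complex.exp ((s : ℂ) * Complex.I)) = Complex.exp (((-s : ℝ) : ℂ) * Complex.I) := by
  rw [← Complex.exp_conj]
  congr 1
  simp

theorem QMB_proof (hSNC : SNC_stmt) : QMB_stmt := by
  intro Ω _ ν _ J nc w M x hw hM hx hwM hMfin
  have hP : IsProbabilityMeasure (PJ J) := (hSNC J).1
  have hmeas : Measurable (fun p : (Fin J → ℝ) × Ω => Complex.exp (((∑ j, p.1 j * x p.2 j : ℝ) : ℂ) * Complex.I) * w p.2) := by
    have h1 : Measurable (fun p : (Fin J → ℝ) × Ω => (∑ j, p.1 j * x p.2 j : ℝ)) := by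
      refine Finset.measurable_sum _ fun j _ => ?_
      exact ((measurable_pi_apply j).comp measurable_fst).mul ((measurable_pi_apply j).comp (hx.comp measurable_snd))
    exact (Complex.measurable_exp.comp ((Complex.measurable_ofReal.comp h1).mul_const _)).mul (hw.comp measurable_snd)
  have hFm : StronglyMeasurable (fun ξ : Fin J → ℝ => ∫ q, Complex.exp (((∑ j, ξ j * x q j : ℝ) : ℂ) * Complex.I) * w q ∂ν) :=
    hmeas.stronglyMeasurable.integral_prod_right'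
  refine ⟨hFm.measurable, ?_⟩
  -- `w` is integrable
  have hwi : Integrable w ν := by
    refine ⟨hw.aestronglyMeasurable, ?_⟩
    rw [hasFiniteIntegral_iff_enorm]
    exact (lintegral_mono hwM).trans_lt (lt_top_iff_ne_top.2 hMfin)
  have hwc : Integrable (fun q => conj (w q)) ν := by
    refine ⟨(Complex.continuous_conj.measurable.comp hw).aestronglyMeasurable, ?_⟩
    rw [hasFiniteIntegral_iff_enorm]
    refine lt_of_le_of_lt (lintegral_mono fun q => ?_) (lt_top_iff_ne_top.2 hMfin)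
    refine le_trans (le_of_eq ?_) (hwM q)
    rw [← ofReal_norm, ← ofReal_norm, Complex.norm_conj]
  have hww : Integrable (fun p : Ω × Ω => w p.1 * conj (w p.2)) (ν.prod ν) := hwi.mul_prod hwc
  obtain ⟨G, hG⟩ : ∃ G : (Fin J → ℝ) → Ω × Ω → ℂ, G = fun ξ p =>
    Complex.exp (((∑ j, ξ j * (x p.1 j - x p.2 j) : ℝ) : ℂ) * Complex.I) * (w p.1 * conj (w p.2)) := ⟨_, rfl⟩
  have hGi : Integrable (Function.uncurry G) ((PJ J).prod (ν.prod ν)) := by
    have h1 : Integrable (fun z : (Fin J → ℝ) × (Ω × Ω) => w z.2.1 * conj (w z.2.2)) ((PJ J).prod (ν.prod ν)) :=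
      hww.comp_snd (PJ J)
    have h2 : Measurable (fun z : (Fin J → ℝ) × (Ω × Ω) => (∑ j, z.1 j * (x z.2.1 j - x z.2.2 j) : ℝ)) := by
      refine Finset.measurable_sum _ fun j _ => ?_
      refine ((measurable_pi_apply j).comp measurable_fst).mul ?_
      exact ((measurable_pi_apply j).comp (hx.comp (measurable_fst.comp measurable_snd))).sub
        ((measurable_pi_apply j).comp (hx.comp (measurable_snd.comp measurable_snd)))
    refine h1.mono ?_ (Eventually.of_forall fun z => ?_)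
    · rw [hG]
      exact ((Complex.measurable_exp.comp ((Complex.measurable_ofReal.comp h2).mul_const _)).aestronglyMeasurable).mul
        h1.aestronglyMeasurable
    · rw [hG]
      show ‖Complex.exp (((∑ j, z.1 j * (x z.2.1 j - x z.2.2 j) : ℝ) : ℂ) * Complex.I) * (w z.2.1 * conj (w z.2.2))‖ ≤ _
      rw [norm_mul, QMB_norm, one_mul]
  obtain ⟨F, hF⟩ : ∃ F : (Fin J → ℝ) → ℂ, F = fun ξ => ∫ q, Complex.exp (((∑ j, ξ j * x q j : ℝ) : ℂ) * Complex.I) * w q ∂ν := ⟨_, rfl⟩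
  have hFe : ∀ ξ, (∫ q, Complex.exp (((∑ j, ξ j * x q j : ℝ) : ℂ) * Complex.I) * w q ∂ν) = F ξ := fun ξ => by rw [hF]
  simp only [hFe] at hFm ⊢
  -- the square is a double integral
  have hsq : ∀ ξ, ((‖F ξ‖ ^ 2 : ℝ) : ℂ) = ∫ p, G ξ p ∂(ν.prod ν) := by
    intro ξ
    have h1 : ((‖F ξ‖ ^ 2 : ℝ) : ℂ) = F ξ * conj (F ξ) := by
      rw [Complex.mul_conj, Complex.normSq_eq_norm_sq]
    rw [h1, hF, ← integral_conj, ← integral_prod_mul, hG]
    refine integral_congr_ae (Eventually.of_forall fun p => ?_)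
    show Complex.exp (((∑ j, ξ j * x p.1 j : ℝ) : ℂ) * Complex.I) * w p.1 *
      conj (Complex.exp (((∑ j, ξ j * x p.2 j : ℝ) : ℂ) * Complex.I) * w p.2) =
      Complex.exp (((∑ j, ξ j * (x p.1 j - x p.2 j) : ℝ) : ℂ) * Complex.I) * (w p.1 * conj (w p.2))
    rw [map_mul, QMB_conj]
    have h2 : (∑ j, ξ j * (x p.1 j - x p.2 j) : ℝ) = (∑ j, ξ j * x p.1 j) + (-∑ j, ξ j * x p.2 j) := by
      rw [← sub_eq_add_neg, ← Finset.sum_sub_distrib]
      exact Finset.sum_congr rfl fun j _ => by ring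
    rw [h2, Complex.ofReal_add, add_mul, Complex.exp_add]
    ring
  have hGint : Integrable (fun ξ => ∫ p, G ξ p ∂(ν.prod ν)) (PJ J) := hGi.integral_prod_left
  have hFi : Integrable (fun ξ => ‖F ξ‖ ^ 2) (PJ J) := by
    have h1 : Integrable (fun ξ => ((‖F ξ‖ ^ 2 : ℝ) : ℂ)) (PJ J) := by
      refine hGint.congr (Eventually.of_forall fun ξ => ?_)
      exact (hsq ξ).symm
    exact h1.re
  have hL : ∫⁻ ξ, ‖F ξ‖ₑ ^ 2 ∂PJ J = ‖∫ ξ, ∫ p, G ξ p ∂(ν.prod ν) ∂PJ J‖ₑ := by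
    have h1 : ∫⁻ ξ, ‖F ξ‖ₑ ^ 2 ∂PJ J = ∫⁻ ξ, ENNReal.ofReal (‖F ξ‖ ^ 2) ∂PJ J := by
      refine lintegral_congr fun ξ => ?_
      rw [← ofReal_norm, ENNReal.ofReal_pow (norm_nonneg _)]
    have h2 : ∫ ξ, ∫ p, G ξ p ∂(ν.prod ν) ∂PJ J = ((∫ ξ, ‖F ξ‖ ^ 2 ∂PJ J : ℝ) : ℂ) := by
      rw [← integral_complex_ofReal]
      exact integral_congr_ae (Eventually.of_forall fun ξ => (hsq ξ).symm)
    have h3 : 0 ≤ ∫ ξ, ‖F ξ‖ ^ 2 ∂PJ J := integral_nonneg fun ξ => sq_nonneg _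
    rw [h1, h2, ← ofReal_norm, Complex.norm_real, Real.norm_of_nonneg h3]
    exact (ofReal_integral_eq_lintegral_ofReal hFi (Eventually.of_forall fun ξ => sq_nonneg _)).symm
  rw [hL, integral_integral_swap hGi]
  refine (enorm_integral_le_lintegral_enorm _).trans ?_
  refine le_trans ?_ (lintegral_prod_le (μ := ν) (ν := ν) (fun p : Ω × Ω => M p.1 * M p.2 *
    (und1 nc (x p.1) (x p.2) + ENNReal.ofReal ((9 / 10) ^ nc))))
  refine lintegral_mono fun p => ?_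
  have h1 : ∫ ξ, G ξ p ∂PJ J = (∫ ξ, Complex.exp (((∑ j, ξ j * (x p.1 j - x p.2 j) : ℝ) : ℂ) * Complex.I) ∂PJ J) * (w p.1 * conj (w p.2)) := by
    rw [hG, ← integral_mul_const]
  show ‖∫ ξ, G ξ p ∂PJ J‖ₑ ≤ M p.1 * M p.2 * (und1 nc (x p.1) (x p.2) + ENNReal.ofReal ((9 / 10) ^ nc))
  rw [h1, enorm_mul, enorm_mul, mul_comm]
  have h2 : ‖conj (w p.2)‖ₑ = ‖w p.2‖ₑ := by
    rw [← ofReal_norm, ← ofReal_norm, Complex.norm_conj]
  rw [h2]
  exact mul_le_mul' (mul_le_mul' (hwM p.1) (hwM p.2)) (QMB_phi hSNC nc (x p.1) (x p.2))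

end Pool.Agent.RPQ
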