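import Pool.Agent.helper11.RPQ.SpecT

/-!
# Row `rpq:TDE` (MP_07c750): the derivative in time
-/

set_option autoImplicit false

open scoped MatrixGroups ContDiff Topology UpperHalfPlane ComplexConjugate
open UpperHalfPlane MeasureTheory Filter Set

namespace Pool.Agent.RPQ

open Pool.Agent.RS
open Pool.Agent.MS (BA BB st pf gk Dk amk)

theorem TDE_st {W : ℝ} {β : ℝ → ℝ} (hβ : SB W β) (o : ℝ) : SB (Real.exp o * W) (st o β) := by
  refine ⟨?_, fun x hx => ?_⟩
  · show ContDiff ℝ ∞ (fun x => Real.exp (-(o / 2)) * β (Real.exp (-o) * x))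
    exact contDiff_const.mul (hβ.1.comp (contDiff_const.mul contDiff_id))
  · have h1 : β (Real.exp (-o) * x) ≠ 0 := by
      intro h
      apply hx
      show Real.exp (-(o / 2)) * β (Real.exp (-o) * x) = 0
      rw [h, mul_zero]
    have h2 := hβ.2 _ h1
    rw [abs_mul, abs_of_pos (Real.exp_pos _)] at h2
    have h3 : |x| = Real.exp o * (Real.exp (-o) * |x|) := by
      rw [← mul_assoc, ← Real.exp_add, add_neg_cancel, Real.exp_zero, one_mul]
    rw [h3]
    exact mul_le_mul_of_nonneg_left h2 (Real.exp_pos _).le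

theorem TDE_sc {W l : ℝ} {α : ℝ → ℝ} (hα : SB W α) (hl : 0 < l) : SB (l * W) (sc l α) := by
  refine ⟨?_, fun x hx => ?_⟩
  · show ContDiff ℝ ∞ (fun t => α (t / l) / l)
    exact (hα.1.comp (contDiff_id.div_const l)).div_const l
  · have h1 : α (x / l) ≠ 0 := by
      intro h
      apply hx
      show α (x / l) / l = 0
      rw [h, zero_div]
    have h2 := hα.2 _ h1
    rw [abs_div, abs_of_pos hl, div_le_iff₀ hl] at h2
    linarith

theorem TDE_mono {W W' : ℝ} {a : ℝ → ℝ} (h : SB W a) (hW : W ≤ W') : SB W' a :=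
  ⟨h.1, fun x hx => (h.2 x hx).trans hW⟩

theorem TDE_zero {W : ℝ} {a : ℝ → ℝ} (h : SB W a) {x : ℝ} (hx : W < |x|) : a x = 0 := by
  by_contra h1
  exact absurd (h.2 x h1) (not_le.2 hx)

theorem TDE_deriv {W : ℝ} {a : ℝ → ℝ} (h : SB W a) : SB W (deriv a) := by
  refine ⟨(contDiff_infty_iff_deriv.1 h.1).2, fun x hx => ?_⟩
  by_contra h1
  push Not at h1
  apply hx
  have h2 : ∀ᶠ y in 𝓝 x, W < |y| := (isOpen_lt continuous_const continuous_abs).mem_nhds h1
  have h3 : a =ᶠ[𝓝 x] fun _ => 0 := h2.mono fun y hy => TDE_zero h hy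
  rw [h3.deriv_eq]
  simp

theorem TDE_shift {W : ℝ} {a : ℝ → ℝ} (h : SB W a) (s : ℝ) : SB (W + |s|) (fun τ => a (τ - s)) := by
  refine ⟨h.1.comp (contDiff_id.sub contDiff_const), fun x hx => ?_⟩
  have h1 := h.2 _ hx
  have h2 : |x| ≤ |x - s| + |s| := by
    calc |x| = |(x - s) + s| := by rw [sub_add_cancel]
      _ ≤ _ := abs_add_le _ _
  linarith

theorem TDE_bd {W : ℝ} {a : ℝ → ℝ} (h : SB W a) : ∃ C : ℝ, 0 ≤ C ∧ ∀ x, |a x| ≤ C := by
  obtain ⟨C, hC⟩ := (isCompact_Icc (a := -W) (b := W)).exists_bound_of_continuousOn h.1.continuous.continuousOn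
  refine ⟨max C 0, le_max_right _ _, fun x => ?_⟩
  by_cases hx : |x| ≤ W
  · exact (hC x (abs_le.1 hx)).trans (le_max_left _ _)
  · rw [TDE_zero h (not_le.1 hx), abs_zero]
    exact le_max_right _ _

theorem TDE_cpow (y s R : ℝ) (hy : 0 < y) : (((Real.exp (-s) * y : ℝ)) : ℂ) ^ ((1 / 2 : ℂ) + (R : ℂ) * Complex.I) =
    Complex.exp (-(s : ℂ) * ((1 / 2 : ℂ) + (R : ℂ) * Complex.I)) * ((y : ℝ) : ℂ) ^ ((1 / 2 : ℂ) + (R : ℂ) * Complex.I) := by
  have h1 : (0 : ℝ) < Real.exp (-s) * y := mul_pos (Real.exp_pos _) hy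
  have h2 : (((Real.exp (-s) * y : ℝ)) : ℂ) ≠ 0 := Complex.ofReal_ne_zero.2 h1.ne'
  have h3 : ((y : ℝ) : ℂ) ≠ 0 := Complex.ofReal_ne_zero.2 hy.ne'
  rw [Complex.cpow_def_of_ne_zero h2, Complex.cpow_def_of_ne_zero h3, ← Complex.ofReal_log h1.le, ← Complex.ofReal_log hy.le,
    Real.log_mul (Real.exp_pos _).ne' hy.ne', Real.log_exp, ← Complex.exp_add]
  congr 1
  push_cast
  ring

theorem TDE_point (hGLC : GLC_stmt) (β a : ℝ → ℝ) (w R t : ℝ) (hw : 0 < w) (z : ℍ) :
    Complex.exp (((R * t : ℝ) : ℂ) * Complex.I) * pk R (pc (st (Real.log (w * Real.exp (-t))) β) a) ((aM t)⁻¹ • z) =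
      pk R (pc (st (Real.log w) β) (fun τ => a (τ - t))) z := by
  obtain ⟨z', hz'⟩ : ∃ z', z' = (aM t)⁻¹ • z := ⟨_, rfl⟩
  rw [← hz']
  have h1 : aM t • z' = z := by rw [hz', smul_inv_smul]
  have h2 : (z : ℂ) = (Real.exp t : ℂ) * z' := by
    rw [← h1]
    exact hGLC.2.2.2.2.2.2.2.1 t z'
  have hre : z'.re = Real.exp (-t) * z.re := by
    have h3 : z.re = Real.exp t * z'.re := by
      have := congrArg Complex.re h2
      rw [Complex.re_ofReal_mul] at this
      exact this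
    rw [h3, ← mul_assoc, ← Real.exp_add, neg_add_cancel, Real.exp_zero, one_mul]
  have him : z'.im = Real.exp (-t) * z.im := by
    have h3 : z.im = Real.exp t * z'.im := by
      have := congrArg Complex.im h2
      rw [Complex.im_ofReal_mul] at this
      exact this
    rw [h3, ← mul_assoc, ← Real.exp_add, neg_add_cancel, Real.exp_zero, one_mul]
  have hlog : Real.log z'.im = Real.log z.im - t := by
    rw [him, Real.log_mul (Real.exp_pos _).ne' z.im_pos.ne', Real.log_exp]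
    ring
  have hst : st (Real.log (w * Real.exp (-t))) β z'.re = Real.exp (t / 2) * st (Real.log w) β z.re := by
    have h4 : Real.log (w * Real.exp (-t)) = Real.log w - t := by
      rw [Real.log_mul hw.ne' (Real.exp_pos _).ne', Real.log_exp]
      ring
    unfold st
    rw [h4, hre]
    have h5 : Real.exp (-(Real.log w - t)) * (Real.exp (-t) * z.re) = Real.exp (-Real.log w) * z.re := by
      rw [← mul_assoc, ← Real.exp_add]
      congr 2
      ring
    have h6 : Real.exp (-((Real.log w - t) / 2)) = Real.exp (t / 2) * Real.exp (-(Real.log w / 2)) := by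
      rw [← Real.exp_add]
      congr 1
      ring
    rw [h5, h6]
    ring
  unfold pk pc
  rw [hlog, hst, him, TDE_cpow _ _ _ z.im_pos]
  have h7 : Complex.exp (((R * t : ℝ) : ℂ) * Complex.I) * (((Real.exp (t / 2) : ℝ) : ℂ) *
      Complex.exp (-(t : ℂ) * ((1 / 2 : ℂ) + (R : ℂ) * Complex.I))) = 1 := by
    rw [Complex.ofReal_exp, ← Complex.exp_add, ← Complex.exp_add]
    have h8 : ((R * t : ℝ) : ℂ) * Complex.I + (((t / 2 : ℝ) : ℂ) + -(t : ℂ) * ((1 / 2 : ℂ) + (R : ℂ) * Complex.I)) = 0 := by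
      push_cast
      ring
    rw [h8, Complex.exp_zero]
  calc Complex.exp (((R * t : ℝ) : ℂ) * Complex.I) *
      (((Real.exp (t / 2) * st (Real.log w) β z.re * a (Real.log z.im - t) : ℝ) : ℂ) *
        (Complex.exp (-(t : ℂ) * ((1 / 2 : ℂ) + (R : ℂ) * Complex.I)) * ((z.im : ℝ) : ℂ) ^ ((1 / 2 : ℂ) + (R : ℂ) * Complex.I)))
      = (Complex.exp (((R * t : ℝ) : ℂ) * Complex.I) * (((Real.exp (t / 2) : ℝ) : ℂ) *
        Complex.exp (-(t : ℂ) * ((1 / 2 : ℂ) + (R : ℂ) * Complex.I)))) *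
        (((st (Real.log w) β z.re * a (Real.log z.im - t) : ℝ) : ℂ) * ((z.im : ℝ) : ℂ) ^ ((1 / 2 : ℂ) + (R : ℂ) * Complex.I)) := by
        push_cast
        ring
    _ = _ := by rw [h7, one_mul]

theorem TDE_reg (hFL0 : FL0_stmt) (hCV1 : CV1_stmt) {W W' : ℝ} {b a : ℝ → ℝ} (hb : SB W b) (ha : SB W' a) (R : ℝ) :
    Continuous (pk R (pc b a)) ∧ HasCompactSupport (pk R (pc b a)) := by
  have h2 := TDE_mono hb (le_max_left W W')
  have h3 := TDE_mono ha (le_max_right W W')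
  have h4 := (hCV1.2.2 _ _ _ h3 h2).1
  have h5 := hFL0.2.1 _ R _ h4
  refine ⟨?_, h5.2⟩
  have h6 := (hFL0.1 _ _ h4).2.2.2.2.2.2
  unfold pk
  refine h6.mul ?_
  rw [continuous_iff_continuousAt]
  intro z
  refine ContinuousAt.cpow ?_ continuousAt_const ?_
  · exact (Complex.continuous_ofReal.comp UpperHalfPlane.continuous_im).continuousAt
  · left
    simpa using z.im_pos

theorem TDE_tr (hGLC : GLC_stmt) (hGWB : GWB_stmt) (hFL0 : FL0_stmt) (hCV1 : CV1_stmt) (Γ : Subgroup SL(2, ℝ)) (φ : ℍ → ℂ)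
    (hΓ : QU.SurfaceGroup Γ) (hφ : InvC Γ φ) (β a : ℝ → ℝ) (W W' : ℝ) (hβ : SB W β) (ha : SB W' a) (w R : ℝ) (hw : 0 < w)
    (g : SL(2, ℝ)) (t : ℝ) :
    Complex.exp (((R * t : ℝ) : ℂ) * Complex.I) * Wf (pk R (pc (st (Real.log (w * Real.exp (-t))) β) a)) φ (g * aM t) =
      Wf (pk R (pc (st (Real.log w) β) (fun τ => a (τ - t)))) φ g := by
  have h1 := TDE_reg hFL0 hCV1 (TDE_st hβ (Real.log (w * Real.exp (-t)))) ha R
  rw [(hGWB Γ _ φ hΓ h1.1 h1.2 hφ).2.1 g (aM t)]
  unfold Wf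
  rw [← integral_const_mul]
  refine integral_congr_ae (Eventually.of_forall fun z => ?_)
  show Complex.exp (((R * t : ℝ) : ℂ) * Complex.I) *
    (pk R (pc (st (Real.log (w * Real.exp (-t))) β) a) ((aM t)⁻¹ • z) * φ (g • z)) = _
  rw [← mul_assoc, TDE_point hGLC β a w R t hw z]

theorem TDE_dY (b a : ℝ → ℝ) (hb : ContDiff ℝ ∞ b) (ha : ContDiff ℝ ∞ a) : QU.dY (pc b a) = pc b (deriv a) := by
  funext z
  have hopen : IsOpen {w : ℂ | 0 < w.im} := isOpen_lt continuous_const Complex.continuous_im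
  have he : QU.onC (pc b a) =ᶠ[𝓝 (z : ℂ)] fun w : ℂ => ((b w.re * a (Real.log w.im) : ℝ) : ℂ) := by
    filter_upwards [hopen.mem_nhds z.im_pos] with w hw
    have h1 : ((ofComplex w : ℍ) : ℂ) = w := ofComplex_apply_of_im_pos hw ▸ rfl
    have h2 : (ofComplex w).re = w.re := by rw [← UpperHalfPlane.coe_re, h1]
    have h3 : (ofComplex w).im = w.im := by rw [← UpperHalfPlane.coe_im, h1]
    show ((b (ofComplex w).re * a (Real.log (ofComplex w).im) : ℝ) : ℂ) = _
    rw [h2, h3]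
  have hb1 : HasFDerivAt (fun w : ℂ => b w.re) (deriv b z.re • Complex.reCLM) (z : ℂ) := by
    have h1 : HasDerivAt b (deriv b z.re) ((z : ℂ).re) := (hb.differentiable (by simp)).differentiableAt.hasDerivAt
    exact h1.comp_hasFDerivAt (z : ℂ) Complex.reCLM.hasFDerivAt
  have ha1 : HasFDerivAt (fun w : ℂ => a (Real.log w.im)) ((deriv a (Real.log z.im) * (z.im)⁻¹) • Complex.imCLM) (z : ℂ) := by
    have h1 : HasDerivAt a (deriv a (Real.log z.im)) (Real.log z.im) := (ha.differentiable (by simp)).differentiableAt.hasDerivAt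
    have h2 : HasDerivAt (fun y : ℝ => a (Real.log y)) (deriv a (Real.log z.im) * (z.im)⁻¹) ((z : ℂ).im) :=
      HasDerivAt.comp (z : ℂ).im h1 (Real.hasDerivAt_log z.im_pos.ne')
    exact h2.comp_hasFDerivAt (z : ℂ) Complex.imCLM.hasFDerivAt
  have h3 := (hb1.mul ha1)
  have h4 : HasFDerivAt (fun w : ℂ => ((b w.re * a (Real.log w.im) : ℝ) : ℂ))
      (Complex.ofRealCLM.comp (b z.re • ((deriv a (Real.log z.im) * (z.im)⁻¹) • Complex.imCLM) +
        a (Real.log z.im) • (deriv b z.re • Complex.reCLM))) (z : ℂ) :=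
    Complex.ofRealCLM.hasFDerivAt.comp (z : ℂ) h3
  unfold QU.dY
  rw [he.fderiv_eq, h4.fderiv]
  show z.im • ((b z.re * ((deriv a (Real.log z.im) * (z.im)⁻¹) * Complex.I.im) + a (Real.log z.im) * (deriv b z.re * Complex.I.re) : ℝ) : ℂ) =
    ((b z.re * deriv a (Real.log z.im) : ℝ) : ℂ)
  rw [Complex.I_im, Complex.I_re, Complex.real_smul, ← Complex.ofReal_mul]
  congr 1
  have := z.im_pos.ne'
  field_simp
  ring

theorem TDE_pt : Continuous fun p : ℝ × ℝ => pt p.1 p.2 := by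
  rw [isEmbedding_coe.continuous_iff]
  have h : (UpperHalfPlane.coe ∘ fun p : ℝ × ℝ => pt p.1 p.2) =
      fun p : ℝ × ℝ => (p.1 : ℂ) + ((Real.exp p.2 : ℝ) : ℂ) * Complex.I := by
    funext p
    apply Complex.ext
    · show p.1 = _
      simp
    · show Real.exp p.2 = _
      rw [Complex.add_im, Complex.ofReal_im, Complex.mul_I_im, Complex.ofReal_re, zero_add]
  rw [h]
  fun_prop

theorem TDE_eq (z : ℍ) : pt z.re (Real.log z.im) = z := by
  apply UpperHalfPlane.ext
  apply Complex.ext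
  · rfl
  · show Real.exp (Real.log z.im) = z.im
    rw [Real.exp_log z.im_pos]

theorem TDE_proof (hGLC : GLC_stmt) (hGWB : GWB_stmt) (hFL0 : FL0_stmt) (hCV1 : CV1_stmt) : TDE_stmt := by
  intro Γ α β w l R φ hΓ hα hβ hw hl hφ g t
  obtain ⟨A, hAdef⟩ : ∃ A, A = sc l α := ⟨_, rfl⟩
  obtain ⟨b, hbdef⟩ : ∃ b, b = st (Real.log w) β := ⟨_, rfl⟩
  have hA₀ : SB (l * (1 / 8)) A := by rw [hAdef]; exact TDE_sc hα.1 hl
  have hb₀ : SB (Real.exp (Real.log w) * (1 / 8)) b := by rw [hbdef]; exact TDE_st hβ.1 _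
  obtain ⟨W, hW⟩ : ∃ W, W = max (Real.exp (Real.log w) * (1 / 8)) (l * (1 / 8)) := ⟨_, rfl⟩
  have hA : SB W A := TDE_mono hA₀ (by rw [hW]; exact le_max_right _ _)
  have hb : SB W b := TDE_mono hb₀ (by rw [hW]; exact le_max_left _ _)
  have hA' := TDE_deriv hA
  have hW0 : 0 ≤ W := by rw [hW]; exact (by positivity : (0 : ℝ) ≤ l * (1 / 8)).trans (le_max_right _ _)
  have hPT : (fun t => PT β α w l R t φ g) = fun s => ∫ z : ℍ, pk R (pc b (fun τ => A (τ - s))) z * φ (g • z) := by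
    funext s
    have h := TDE_tr hGLC hGWB hFL0 hCV1 Γ φ hΓ hφ β (sc l α) (1 / 8) (l * (1 / 8)) hβ.1 (TDE_sc hα.1 hl) w R hw g s
    rw [← hAdef, ← hbdef] at h
    unfold PT QQ cw
    rw [← hAdef, h]
    rfl
  have hval : -(Complex.exp (((R * t : ℝ) : ℂ) * Complex.I) * Wf (pk R (QU.dY (cw β α (w * Real.exp (-t)) l))) φ (g * aM t)) =
      ∫ z : ℍ, -(pk R (pc b (fun τ => deriv A (τ - t))) z * φ (g • z)) := by
    have h := TDE_tr hGLC hGWB hFL0 hCV1 Γ φ hΓ hφ β (deriv A) (1 / 8) W hβ.1 hA' w R hw g t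
    rw [← hbdef] at h
    unfold cw
    rw [← hAdef, TDE_dY _ _ (TDE_st hβ.1 _).1 hA.1, h, integral_neg]
    rfl
  rw [hPT, hval]
  have hφg : Continuous (fun z : ℍ => φ (g • z)) := hφ.1.comp (continuous_const_smul g)
  obtain ⟨C1, hC10, hC1⟩ := TDE_bd hb
  obtain ⟨C2, hC20, hC2⟩ := TDE_bd hA'
  obtain ⟨K, hK⟩ : ∃ K, K = (fun p : ℝ × ℝ => pt p.1 p.2) '' (Icc (-W) W ×ˢ Icc (-(W + |t| + 1)) (W + |t| + 1)) := ⟨_, rfl⟩
  have hKc : IsCompact K := by
    rw [hK]
    exact (isCompact_Icc.prod isCompact_Icc).image TDE_pt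
  have hyc : Continuous (fun z : ℍ => ((z.im : ℝ) : ℂ) ^ ((1 / 2 : ℂ) + (R : ℂ) * Complex.I)) := by
    rw [continuous_iff_continuousAt]
    intro z
    refine ContinuousAt.cpow ?_ continuousAt_const ?_
    · exact (Complex.continuous_ofReal.comp UpperHalfPlane.continuous_im).continuousAt
    · left
      simpa using z.im_pos
  obtain ⟨C3, hC3⟩ := hKc.exists_bound_of_continuousOn (hyc.mul hφg).continuousOn
  have key := hasDerivAt_integral_of_dominated_loc_of_deriv_le (μ := (volume : Measure ℍ))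
    (F := fun s (z : ℍ) => pk R (pc b (fun τ => A (τ - s))) z * φ (g • z))
    (F' := fun s (z : ℍ) => -(pk R (pc b (fun τ => deriv A (τ - s))) z * φ (g • z))) (x₀ := t)
    (s := Metric.ball t 1) (bound := K.indicator (fun _ => C1 * C2 * C3)) (Metric.ball_mem_nhds t one_pos)
    (Eventually.of_forall fun s => ((TDE_reg hFL0 hCV1 hb (TDE_shift hA s) R).1.mul hφg).aestronglyMeasurable) ?_ ?_ ?_ ?_ ?_
  · exact key.2
  · have h := TDE_reg hFL0 hCV1 hb (TDE_shift hA t) R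
    exact (h.1.mul hφg).integrable_of_hasCompactSupport h.2.mul_right
  · exact ((TDE_reg hFL0 hCV1 hb (TDE_shift hA' t) R).1.mul hφg).neg.aestronglyMeasurable
  · refine Eventually.of_forall fun z s hs => ?_
    show ‖-(pk R (pc b (fun τ => deriv A (τ - s))) z * φ (g • z))‖ ≤ K.indicator (fun _ => C1 * C2 * C3) z
    rw [norm_neg]
    have e : pk R (pc b (fun τ => deriv A (τ - s))) z * φ (g • z) =
        ((b z.re * deriv A (Real.log z.im - s) : ℝ) : ℂ) * (((z.im : ℝ) : ℂ) ^ ((1 / 2 : ℂ) + (R : ℂ) * Complex.I) * φ (g • z)) := by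
      unfold pk pc
      ring
    rw [e]
    by_cases hz : z ∈ K
    · rw [indicator_of_mem hz, norm_mul, Complex.norm_real, norm_mul]
      have h1 := hC1 z.re
      have h2 := hC2 (Real.log z.im - s)
      have h3 := hC3 z hz
      rw [Real.norm_eq_abs, Real.norm_eq_abs]
      exact mul_le_mul (mul_le_mul h1 h2 (abs_nonneg _) hC10) h3 (norm_nonneg _) (by positivity)
    · rw [indicator_of_notMem hz]
      have hzero : b z.re * deriv A (Real.log z.im - s) = 0 := by
        by_contra hne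
        have h1 : b z.re ≠ 0 := left_ne_zero_of_mul hne
        have h2 : deriv A (Real.log z.im - s) ≠ 0 := right_ne_zero_of_mul hne
        have h3 := hb.2 _ h1
        have h4 := hA'.2 _ h2
        apply hz
        rw [hK]
        refine ⟨(z.re, Real.log z.im), ⟨abs_le.1 h3, abs_le.1 ?_⟩, TDE_eq z⟩
        rw [Metric.mem_ball, Real.dist_eq] at hs
        have h5 : |Real.log z.im| ≤ |Real.log z.im - s| + |s - t| + |t| := by
          calc |Real.log z.im| = |(Real.log z.im - s) + (s - t) + t| := by ring_nf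
            _ ≤ |(Real.log z.im - s) + (s - t)| + |t| := abs_add_le _ _
            _ ≤ _ := by linarith [abs_add_le (Real.log z.im - s) (s - t)]
        show |Real.log z.im| ≤ W + |t| + 1
        linarith
      rw [hzero]
      simp
  · refine (integrable_indicator_iff hKc.measurableSet).2 ?_
    exact integrableOn_const hKc.measure_lt_top.ne
  · refine Eventually.of_forall fun z s _ => ?_
    have h1 : HasDerivAt A (deriv A (Real.log z.im - s)) (Real.log z.im - s) :=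
      (hA.1.differentiable (by simp)).differentiableAt.hasDerivAt
    have h2 : HasDerivAt (fun s => A (Real.log z.im - s)) (-deriv A (Real.log z.im - s)) s := h1.comp_const_sub (Real.log z.im) s
    have h3 := ((h2.const_mul (b z.re)).ofReal_comp.mul_const (((z.im : ℝ) : ℂ) ^ ((1 / 2 : ℂ) + (R : ℂ) * Complex.I))).mul_const (φ (g • z))
    refine h3.congr_deriv ?_
    show _ = -(pk R (pc b (fun τ => deriv A (τ - s))) z * φ (g • z))
    unfold pk pc
    push_cast
    ring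

end Pool.Agent.RPQ
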